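import Pool.Agent.H751.AB.Mag

/-! CONJ and INJ (helper279). -/

set_option autoImplicit false

namespace Pool.Agent.H279.AB

open Pool.Agent.H751.AB Pool.Agent.H751.AB.NC

variable {ι : Type}

theorem ms_conj_tr (h3 : S_TRC) (W : List ι) (h y : FreeGroup ι) :
    tr W (ms (h * y * h⁻¹)) = tr W (ms y) := by
  rw [ms_mul, h3, ms_mul, ← mul_assoc, ms_inv_mul, one_mul]

theorem map_chain {L : List (ι × ℤ)} (h : L.IsChain (fun p q => p.1 ≠ q.1)) :
    (L.map Prod.fst).IsChain (fun a b => a ≠ b) := by
  rw [List.isChain_map]
  exact h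

theorem rot_chain {W : List ι} (h : W.IsChain (fun a b => a ≠ b))
    (h' : ∀ p ∈ W.head?, ∀ q ∈ W.getLast?, q ≠ p) (k : ℕ) (hk : k < W.length) :
    (W.rotate k).IsChain (fun a b => a ≠ b) := by
  rw [List.rotate_eq_drop_append_take hk.le, List.isChain_append]
  refine ⟨h.drop k, h.take k, ?_⟩
  intro a ha b hb
  rw [List.getLast?_drop, if_neg (not_le.2 hk)] at ha
  rw [List.head?_take] at hb
  split_ifs at hb with h0
  · simp at hb
  · exact h' b hb a ha

theorem T_INJ (h1 : S_SYL) (h2 : S_COEF) : S_INJ := by
  intro ι x hx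
  obtain ⟨h, L, rfl, hne, hch, -⟩ := h1 ι x
  have hs : ms (syl L) = 1 := by
    have e : syl L = h⁻¹ * (h * syl L * h⁻¹) * h := by group
    rw [e, ms_mul, ms_mul, hx, mul_one, ms_inv_mul]
  cases L with
  | nil => simp [syl]
  | cons p L =>
    exfalso
    have hp : ((p :: L).map Prod.snd).prod ≠ 0 := by
      refine List.prod_ne_zero ?_
      intro h0
      obtain ⟨q, hq, hq0⟩ := List.mem_map.1 h0
      exact hne q hq hq0
    have h := (h2 ι (p :: L) ((p :: L).map Prod.fst) (map_chain hch)).2.1 rfl
    rw [hs, List.map_cons, one_cons] at h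
    exact hp h.symm

theorem T_CONJ (h1 : S_SYL) (h2 : S_COEF) (h3 : S_TRC) : S_CONJ := by
  intro ι j x hx
  obtain ⟨h, L, rfl, hne, hch, hcyc⟩ := h1 ι x
  have ht : ∀ W : List ι, W ≠ [] → tr W (ms (syl L)) = tr W (1 + X j) := by
    intro W hW
    rw [← ms_conj_tr h3 W h (syl L)]
    exact hx W hW
  have hone : tr [j] ((1 : NC ι) + X j) = 1 := by
    classical
    simp only [tr, List.length_singleton, Finset.sum_range_one, List.rotate_zero]
    rw [NC.add_apply, one_cons, X_cons]
    simp
  have hj := ht [j] (by simp)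
  rw [hone] at hj
  simp only [tr, List.length_singleton, Finset.sum_range_one, List.rotate_zero] at hj
  rcases L with _ | ⟨p, _ | ⟨q, L⟩⟩
  · exfalso
    have : ms (syl ([] : List (ι × ℤ))) = 1 := by simp [syl, ms_one]
    rw [this, one_cons] at hj
    exact zero_ne_one hj
  · have c := h2 ι [p] [j] (List.isChain_singleton _)
    by_cases hpj : [j] = [p].map Prod.fst
    · have e := c.2.1 hpj
      rw [hj] at e
      have e1 : j = p.1 := by simpa using hpj
      have e2 : p.2 = 1 := by simpa using e.symm
      refine ⟨h, ?_⟩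
      simp only [syl, List.map_cons, List.map_nil, List.prod_cons, List.prod_nil, mul_one]
      rw [e2, zpow_one, e1]
    · exfalso
      have e := c.2.2 (by simp) hpj
      rw [hj] at e
      exact one_ne_zero e
  · exfalso
    set L' : List (ι × ℤ) := p :: q :: L with hL'
    have hlen : 2 ≤ L'.length := by simp [hL']
    set W : List ι := L'.map Prod.fst with hW
    have hWl : W.length = L'.length := by simp [hW]
    have hWne : W ≠ [] := by
      intro h0
      rw [h0] at hWl
      rw [List.length_nil] at hWl
      omega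
    have hP : (L'.map Prod.snd).prod ≠ 0 := by
      refine List.prod_ne_zero ?_
      intro h0
      obtain ⟨r, hr, hr0⟩ := List.mem_map.1 h0
      exact hne r hr hr0
    set P : ℤ := (L'.map Prod.snd).prod with hPdef
    have hend : ∀ a ∈ W.head?, ∀ b ∈ W.getLast?, b ≠ a := by
      intro a ha b hb
      rw [hW, List.head?_map] at ha
      rw [hW, List.getLast?_map] at hb
      obtain ⟨a', ha', rfl⟩ := Option.mem_map.1 ha
      obtain ⟨b', hb', rfl⟩ := Option.mem_map.1 hb
      exact hcyc hlen a' ha' b' hb'
    have hterm : ∀ k < W.length, ms (syl L') (W.rotate k) = P ∨ ms (syl L') (W.rotate k) = 0 := by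
      intro k hk
      have c := h2 ι L' (W.rotate k) (rot_chain (map_chain hch) hend k hk)
      by_cases e : W.rotate k = L'.map Prod.fst
      · exact Or.inl (c.2.1 e)
      · exact Or.inr (c.2.2 (by rw [List.length_rotate, hWl]) e)
    have h0 : ms (syl L') (W.rotate 0) = P := by
      rw [List.rotate_zero]
      exact (h2 ι L' W (map_chain hch)).2.1 rfl
    have hsum : 0 < (tr W (ms (syl L'))) * P := by
      unfold tr
      rw [Finset.sum_mul]
      refine lt_of_lt_of_le (b := ms (syl L') (W.rotate 0) * P) ?_ ?_
      · rw [h0]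
        exact mul_self_pos.2 hP
      · refine Finset.single_le_sum (f := fun k => ms (syl L') (W.rotate k) * P) ?_
          (Finset.mem_range.2 (by omega))
        intro k hk
        rcases hterm k (Finset.mem_range.1 hk) with e | e
        · simp only [e]
          exact mul_self_nonneg P
        · simp only [e, zero_mul, le_refl]
    have hzero : tr W ((1 : NC ι) + X j) = 0 := by
      unfold tr
      refine Finset.sum_eq_zero fun k _ => ?_
      have hl : 2 ≤ (W.rotate k).length := by rw [List.length_rotate, hWl]; exact hlen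
      rcases hr : W.rotate k with _ | ⟨a, _ | ⟨b, V⟩⟩
      · rw [hr] at hl; simp at hl
      · rw [hr] at hl; simp at hl
      · classical
        rw [NC.add_apply, one_cons, X_cons, if_neg (by simp), add_zero]
    rw [ht W hWne, hzero, zero_mul] at hsum
    exact lt_irrefl _ hsum

end Pool.Agent.H279.AB
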