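import Pool.Agent.H751.AB.Stm4

/-!
VA: from abelian to virtually abelian subgroups of `Out (F_n)` (helper279; the congruence subgroup `U K` is
modelled on P_TOP.lean by helper264).
-/

set_option autoImplicit false

namespace Pool.Agent.H279.AB

open Pool.Agent.H751.AB

/-- finitely generated abelian groups are residually finite -/
theorem rf (G : Type*) [CommGroup G] [Group.FG G] (y : G) (hy : y ≠ 1) :
    ∃ B : Subgroup G, B.FiniteIndex ∧ y ∉ B := by
  obtain ⟨ι, j, _, _, p, hp, e, ⟨E⟩⟩ := CommGroup.equiv_free_prod_prod_multiplicative_zmod G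
  have hE : E y ≠ 1 := fun h => hy (E.map_eq_one_iff.1 h)
  by_cases hu : (E y).1 = 1
  · have hw : (E y).2 ≠ 1 := fun h => hE (Prod.ext hu h)
    have : ∀ i, NeZero (p i ^ e i) := fun i => ⟨pow_ne_zero _ (hp i).ne_zero⟩
    let f : G →* ((i : ι) → Multiplicative (ZMod (p i ^ e i))) :=
      (MonoidHom.snd (j → Multiplicative ℤ) ((i : ι) → Multiplicative (ZMod (p i ^ e i)))).comp
        E.toMonoidHom
    have : Finite f.range := inferInstance
    refine ⟨f.ker, Subgroup.finiteIndex_ker f, fun h => hw ?_⟩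
    exact MonoidHom.mem_ker.1 h
  · obtain ⟨k, hk⟩ : ∃ k, (E y).1 k ≠ 1 := by
      by_contra hcon
      push Not at hcon
      exact hu (funext hcon)
    set z : ℤ := Multiplicative.toAdd ((E y).1 k) with hz
    have hz0 : z ≠ 0 := fun h => hk h
    let g : Multiplicative ℤ →* Multiplicative (ZMod (z.natAbs + 1)) :=
      AddMonoidHom.toMultiplicative (Int.castAddHom (ZMod (z.natAbs + 1)))
    let f : G →* Multiplicative (ZMod (z.natAbs + 1)) :=
      g.comp ((Pi.evalMonoidHom (fun _ : j => Multiplicative ℤ) k).comp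
        ((MonoidHom.fst (j → Multiplicative ℤ) ((i : ι) → Multiplicative (ZMod (p i ^ e i)))).comp
          E.toMonoidHom))
    have : Finite (Multiplicative (ZMod (z.natAbs + 1))) :=
      inferInstanceAs (Finite (ZMod (z.natAbs + 1)))
    have : Finite f.range := inferInstance
    refine ⟨f.ker, Subgroup.finiteIndex_ker f, fun h => hz0 ?_⟩
    have h1 : ((z : ℤ) : ZMod (z.natAbs + 1)) = 0 := MonoidHom.mem_ker.1 h
    have h2 : ((z.natAbs + 1 : ℕ) : ℤ) ∣ z := (ZMod.intCast_zmod_eq_zero_iff_dvd z _).1 h1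
    exact Int.eq_zero_of_abs_lt_dvd h2 (by rw [Int.abs_eq_natAbs]; omega)

/-- the same relative to a normal subgroup with abelian quotient -/
theorem rf2 {G : Type*} [Group G] [Group.FG G] (J : Subgroup G) [J.Normal]
    (hc : ∀ a b : G, a * b * a⁻¹ * b⁻¹ ∈ J) (y : G) (hy : y ∉ J) :
    ∃ B : Subgroup G, B.FiniteIndex ∧ J ≤ B ∧ y ∉ B := by
  let : CommGroup (G ⧸ J) :=
    { (inferInstance : Group (G ⧸ J)) with
      mul_comm := by
        intro a b
        obtain ⟨a, rfl⟩ := QuotientGroup.mk_surjective a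
        obtain ⟨b, rfl⟩ := QuotientGroup.mk_surjective b
        rw [← QuotientGroup.mk_mul, ← QuotientGroup.mk_mul]
        refine QuotientGroup.eq.2 ?_
        have h := hc b⁻¹ a⁻¹
        have e1 : (a * b)⁻¹ * (b * a) = b⁻¹ * a⁻¹ * b⁻¹⁻¹ * a⁻¹⁻¹ := by group
        rw [e1]
        exact h }
  obtain ⟨B, hB, hyB⟩ := rf (G ⧸ J) (y : G ⧸ J) (fun h => hy ((QuotientGroup.eq_one_iff y).1 h))
  refine ⟨B.comap (QuotientGroup.mk' J), ⟨?_⟩, ?_, ?_⟩
  · rw [Subgroup.index_comap_of_surjective _ (QuotientGroup.mk'_surjective J)]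
    exact hB.index_ne_zero
  · intro a ha
    rw [Subgroup.mem_comap]
    have h1 : QuotientGroup.mk' J a = 1 := (QuotientGroup.eq_one_iff a).2 ha
    rw [h1]
    exact one_mem _
  · intro h
    exact hyB (Subgroup.mem_comap.1 h)

/-- the automorphisms which act trivially modulo `K` -/
def U {n : ℕ} (K : Subgroup (FreeGroup (Fin n))) : Subgroup (MulAut (FreeGroup (Fin n))) where
  carrier := {α | ∀ x, α x * x⁻¹ ∈ K}
  one_mem' := fun x => by
    rw [MulAut.one_apply, mul_inv_cancel]; exact one_mem _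
  mul_mem' := by
    intro α β h h' x
    have := mul_mem (h (β x)) (h' x)
    rwa [mul_assoc, inv_mul_cancel_left] at this
  inv_mem' := by
    intro α h x
    have := inv_mem (h (α⁻¹ x))
    rw [MulAut.apply_inv_self, mul_inv_rev, inv_inv] at this
    exact this

theorem U_conj {n : ℕ} {K : Subgroup (FreeGroup (Fin n))} (hK : K.Characteristic)
    {α : MulAut (FreeGroup (Fin n))} (hα : α ∈ U K) (β : MulAut (FreeGroup (Fin n))) :
    β * α * β⁻¹ ∈ U K := by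
  intro x
  have h1 : α (β⁻¹ x) * (β⁻¹ x)⁻¹ ∈ K := hα (β⁻¹ x)
  have h2 : K ≤ K.comap β.toMonoidHom := (Subgroup.characteristic_iff_le_comap.1 hK) β
  have h3 : β (α (β⁻¹ x) * (β⁻¹ x)⁻¹) ∈ K := h2 h1
  rw [map_mul, map_inv, MulAut.apply_inv_self] at h3
  exact h3

theorem Inn_conj {n : ℕ} {α : MulAut (FreeGroup (Fin n))} (hα : α ∈ Inn (Fin n))
    (β : MulAut (FreeGroup (Fin n))) : β * α * β⁻¹ ∈ Inn (Fin n) := by
  obtain ⟨g, rfl⟩ := hα
  refine ⟨β g, ?_⟩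
  ext1 x
  show β g * x * (β g)⁻¹ = β (g * β⁻¹ x * g⁻¹)
  rw [map_mul, map_mul, map_inv, MulAut.apply_inv_self]

instance Inn_normal (n : ℕ) : (Inn (Fin n)).Normal := ⟨fun _ h β => Inn_conj h β⟩

/-- Schreier -/
theorem abOut_of_fi {n : ℕ} {A B : Subgroup (MulAut (FreeGroup (Fin n)))} (hA : AbOut A)
    (hI : Inn (Fin n) ≤ B) (hBA : B ≤ A) (hidx : B.relIndex A ≠ 0) : AbOut B := by
  refine ⟨hI, ?_, fun a ha b hb => hA.2.2 a (hBA ha) b (hBA hb)⟩
  have : Group.FG A := (Group.fg_iff_subgroup_fg A).2 hA.2.1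
  have : (B.subgroupOf A).FiniteIndex := ⟨hidx⟩
  have h1 : Group.FG (B.subgroupOf A) := Subgroup.fg_of_index_ne_zero _
  have h2 : Group.FG B := Group.fg_of_surjective
    (f := (Subgroup.subgroupOfEquivOfLe hBA).toMonoidHom) (Subgroup.subgroupOfEquivOfLe hBA).surjective
  exact (Group.fg_iff_subgroup_fg B).1 h2

/-- characteristic subgroups are closed under intersections -/
theorem char_iInf {G : Type*} [Group G] {ι : Sort*} (K : ι → Subgroup G)
    (h : ∀ i, (K i).Characteristic) : (⨅ i, K i).Characteristic := by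
  rw [Subgroup.characteristic_iff_le_comap]
  intro φ x hx
  rw [Subgroup.mem_comap, Subgroup.mem_iInf]
  intro i
  exact (Subgroup.characteristic_iff_le_comap.1 (h i)) φ ((Subgroup.mem_iInf.1 hx) i)

/-- the claim (2) of the proof -/
theorem claim {n : ℕ} (H : ∀ A : Subgroup (MulAut (FreeGroup (Fin n))), AbOut A → Full A)
    (A A₁ : Subgroup (MulAut (FreeGroup (Fin n)))) (hA₁ : AbOut A₁) (hle : A₁ ≤ A)
    (hidx : A₁.relIndex A ≠ 0) (hnor : ∀ a ∈ A, ∀ x ∈ A₁, a * x * a⁻¹ ∈ A₁)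
    (x : MulAut (FreeGroup (Fin n))) (hx : x ∈ A) (hx1 : x ∉ A₁) :
    ∃ K : Subgroup (FreeGroup (Fin n)), K.Characteristic ∧ K.FiniteIndex ∧
      ∀ a ∈ A₁, x * a ∉ U K := by
  by_contra hcon
  push Not at hcon
  -- (2a)
  have h2a : ∀ b ∈ A₁, x * b * x⁻¹ * b⁻¹ ∈ Inn (Fin n) := by
    intro b hb
    by_contra hy
    have hyA : x * b * x⁻¹ * b⁻¹ ∈ A₁ := mul_mem (hnor x hx b hb) (inv_mem hb)
    have : Group.FG A₁ := (Group.fg_iff_subgroup_fg A₁).2 hA₁.2.1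
    obtain ⟨B, hB, hJB, hyB⟩ := rf2 ((Inn (Fin n)).subgroupOf A₁)
      (fun a b => by
        rw [Subgroup.mem_subgroupOf]
        exact hA₁.2.2 a a.2 b b.2)
      ⟨x * b * x⁻¹ * b⁻¹, hyA⟩ (fun h => hy (Subgroup.mem_subgroupOf.1 h))
    have hB1 : Inn (Fin n) ≤ B.map A₁.subtype := by
      intro i hi
      exact ⟨⟨i, hA₁.1 hi⟩, hJB (Subgroup.mem_subgroupOf.2 hi), rfl⟩
    have hB2 : (B.map A₁.subtype).relIndex A₁ ≠ 0 := by
      have e1 : (B.map A₁.subtype).subgroupOf A₁ = B :=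
        Subgroup.comap_map_eq_self_of_injective A₁.subtype_injective B
      rw [Subgroup.relIndex, e1]
      exact hB.index_ne_zero
    obtain ⟨K, hKc, hKf, hK⟩ := H A₁ hA₁ _ hB1 hB2
    obtain ⟨a, ha, hxa⟩ := hcon K hKc hKf
    have h1 : (x * a) * b * (x * a)⁻¹ * b⁻¹ ∈ U K := by
      have h2 := mul_mem hxa (U_conj hKc (inv_mem hxa) b)
      have e1 : (x * a) * b * (x * a)⁻¹ * b⁻¹ = x * a * (b * (x * a)⁻¹ * b⁻¹) := by group
      rw [e1]
      exact h2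
    have h3 : (x * a) * b * (x * a)⁻¹ * b⁻¹ ∈ A₁ :=
      mul_mem (hnor (x * a) (mul_mem hx (hle ha)) b hb) (inv_mem hb)
    have h4 : (x * a) * b * (x * a)⁻¹ * b⁻¹ ∈ B.map A₁.subtype := hK _ h3 h1
    have h5 : x * (a * b * a⁻¹ * b⁻¹) * x⁻¹ ∈ B.map A₁.subtype :=
      hB1 (Inn_conj (hA₁.2.2 a ha b hb) x)
    have h6 : x * b * x⁻¹ * b⁻¹ ∈ B.map A₁.subtype := by
      have h7 := mul_mem (inv_mem h5) h4
      have e1 : (x * (a * b * a⁻¹ * b⁻¹) * x⁻¹)⁻¹ * ((x * a) * b * (x * a)⁻¹ * b⁻¹)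
          = x * b * x⁻¹ * b⁻¹ := by group
      rwa [e1] at h7
    obtain ⟨y', hy', hyy⟩ := h6
    refine hyB ?_
    have e2 : (⟨x * b * x⁻¹ * b⁻¹, hyA⟩ : A₁) = y' := Subtype.ext hyy.symm
    rw [e2]
    exact hy'
  -- (2b)
  set A₂ : Subgroup (MulAut (FreeGroup (Fin n))) := Subgroup.zpowers x ⊔ A₁ with hA₂
  have h12 : A₁ ≤ A₂ := le_sup_right
  have hx2 : x ∈ A₂ := (le_sup_left : Subgroup.zpowers x ≤ A₂) (Subgroup.mem_zpowers x)
  have h2A : A₂ ≤ A := sup_le (Subgroup.zpowers_le.2 hx) hle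
  -- for fixed `b` the set of `a` commuting with `b` modulo inner automorphisms is a subgroup
  let C : MulAut (FreeGroup (Fin n)) → Subgroup (MulAut (FreeGroup (Fin n))) := fun b =>
    { carrier := {a | a * b * a⁻¹ * b⁻¹ ∈ Inn (Fin n)}
      one_mem' := by
        show 1 * b * 1⁻¹ * b⁻¹ ∈ Inn (Fin n)
        have e1 : 1 * b * 1⁻¹ * b⁻¹ = 1 := by group
        rw [e1]
        exact one_mem _
      mul_mem' := by
        intro a a' ha ha'
        show a * a' * b * (a * a')⁻¹ * b⁻¹ ∈ Inn (Fin n)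
        have e1 : a * a' * b * (a * a')⁻¹ * b⁻¹
            = (a * (a' * b * a'⁻¹ * b⁻¹) * a⁻¹) * (a * b * a⁻¹ * b⁻¹) := by group
        rw [e1]
        exact mul_mem (Inn_conj ha' a) ha
      inv_mem' := by
        intro a ha
        show a⁻¹ * b * a⁻¹⁻¹ * b⁻¹ ∈ Inn (Fin n)
        have e1 : a⁻¹ * b * a⁻¹⁻¹ * b⁻¹ = a⁻¹ * (a * b * a⁻¹ * b⁻¹)⁻¹ * a⁻¹⁻¹ := by group
        rw [e1]
        exact Inn_conj (inv_mem ha) a⁻¹ }
  have hC : ∀ a b, a ∈ C b → b ∈ C a := by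
    intro a b h
    show b * a * b⁻¹ * a⁻¹ ∈ Inn (Fin n)
    have h1 : (a * b * a⁻¹ * b⁻¹)⁻¹ ∈ Inn (Fin n) := inv_mem h
    have e1 : (a * b * a⁻¹ * b⁻¹)⁻¹ = b * a * b⁻¹ * a⁻¹ := by group
    rwa [e1] at h1
  have hCx : A₂ ≤ C x := by
    refine sup_le (Subgroup.zpowers_le.2 ?_) ?_
    · show x * x * x⁻¹ * x⁻¹ ∈ Inn (Fin n)
      have e1 : x * x * x⁻¹ * x⁻¹ = 1 := by group
      rw [e1]
      exact one_mem _
    · intro b hb
      exact hC x b (h2a b hb)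
  have hCb : ∀ b ∈ A₁, A₂ ≤ C b := by
    intro b hb
    refine sup_le (Subgroup.zpowers_le.2 (h2a b hb)) ?_
    intro a ha
    exact hA₁.2.2 a ha b hb
  have hCa : ∀ a ∈ A₂, A₂ ≤ C a := by
    intro a ha
    refine sup_le (Subgroup.zpowers_le.2 (hC a x (hCx ha))) ?_
    intro b hb
    exact hC a b (hCb b hb ha)
  have hfg : A₂.FG := by
    refine Subgroup.FG.sup ⟨{x}, ?_⟩ hA₁.2.1
    rw [Finset.coe_singleton, Subgroup.zpowers_eq_closure]
  have hA₂ab : AbOut A₂ := ⟨hA₁.1.trans h12, hfg, fun a ha b hb => hCa b hb ha⟩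
  have hidx2 : A₁.relIndex A₂ ≠ 0 :=
    fun h => hidx (Subgroup.relIndex_eq_zero_of_le_right h2A h)
  obtain ⟨K, hKc, hKf, hK⟩ := H A₂ hA₂ab A₁ hA₁.1 hidx2
  obtain ⟨a, ha, hxa⟩ := hcon K hKc hKf
  have h1 : x * a ∈ A₁ := hK _ (mul_mem hx2 (h12 ha)) hxa
  have h2 := mul_mem h1 (inv_mem ha)
  rw [mul_inv_cancel_right] at h2
  exact hx1 h2

/-- **VA** -/
theorem T_VA : S_VA := by
  intro n H A A₀ hA₀ hle hidx
  -- (0) the normal core
  set A₁ : Subgroup (MulAut (FreeGroup (Fin n))) := (A₀.subgroupOf A).normalCore.map A.subtype with hA₁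
  have h1A : A₁ ≤ A := Subgroup.map_subtype_le _
  have h10 : A₁ ≤ A₀ := by
    rintro _ ⟨y, hy, rfl⟩
    exact Subgroup.mem_subgroupOf.1 (Subgroup.normalCore_le _ hy)
  have hfi : (A₀.subgroupOf A).FiniteIndex := ⟨hidx⟩
  have hidx1 : A₁.relIndex A ≠ 0 := by
    have e1 : A₁.subgroupOf A = (A₀.subgroupOf A).normalCore :=
      Subgroup.comap_map_eq_self_of_injective A.subtype_injective _
    rw [Subgroup.relIndex, e1]
    exact (inferInstance : (A₀.subgroupOf A).normalCore.FiniteIndex).index_ne_zero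
  have hI1 : Inn (Fin n) ≤ A₁ := by
    have h1 : (Inn (Fin n)).subgroupOf A ≤ (A₀.subgroupOf A).normalCore := by
      refine Subgroup.normal_le_normalCore.2 ?_
      intro y hy
      exact Subgroup.mem_subgroupOf.2 (hA₀.1 (Subgroup.mem_subgroupOf.1 hy))
    intro i hi
    exact ⟨⟨i, hle (hA₀.1 hi)⟩, h1 (Subgroup.mem_subgroupOf.2 hi), rfl⟩
  have hidx10 : A₁.relIndex A₀ ≠ 0 :=
    fun h => hidx1 (Subgroup.relIndex_eq_zero_of_le_right hle h)
  have hab1 : AbOut A₁ := abOut_of_fi hA₀ hI1 h10 hidx10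
  have hnor : ∀ a ∈ A, ∀ x ∈ A₁, a * x * a⁻¹ ∈ A₁ := by
    rintro a ha _ ⟨y, hy, rfl⟩
    have h1 := (inferInstance : (A₀.subgroupOf A).normalCore.Normal).conj_mem y hy ⟨a, ha⟩
    exact ⟨_, h1, rfl⟩
  -- (1)
  have hfi1 : (A₁.subgroupOf A).FiniteIndex := ⟨hidx1⟩
  have hfin : Finite (A ⧸ A₁.subgroupOf A) := Subgroup.finite_quotient_of_finiteIndex
  have hch : ∀ q : A ⧸ A₁.subgroupOf A, ∃ K : Subgroup (FreeGroup (Fin n)), K.Characteristic ∧
      K.FiniteIndex ∧ (((q.out : A) : MulAut (FreeGroup (Fin n))) ∉ A₁ →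
        ∀ a ∈ A₁, ((q.out : A) : MulAut (FreeGroup (Fin n))) * a ∉ U K) := by
    intro q
    by_cases hq : ((q.out : A) : MulAut (FreeGroup (Fin n))) ∈ A₁
    · exact ⟨⊤, inferInstance, inferInstance, fun h => absurd hq h⟩
    · obtain ⟨K, h1, h2, h3⟩ := claim H A A₁ hab1 h1A hidx1 hnor _ (q.out : A).2 hq
      exact ⟨K, h1, h2, fun _ => h3⟩
  choose K hKc hKf hK using hch
  have hKall : ∀ α ∈ A, α ∈ U (⨅ q, K q) → α ∈ A₁ := by
    intro α hα hαU
    set q : A ⧸ A₁.subgroupOf A := ((⟨α, hα⟩ : A) : A ⧸ A₁.subgroupOf A) with hq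
    have h1 : ((q.out : A) : A ⧸ A₁.subgroupOf A) = q := QuotientGroup.out_eq' q
    rw [hq] at h1
    have h2 : (q.out : A)⁻¹ * ⟨α, hα⟩ ∈ A₁.subgroupOf A := QuotientGroup.eq.1 h1
    have h3 : ((q.out : A) : MulAut (FreeGroup (Fin n)))⁻¹ * α ∈ A₁ := Subgroup.mem_subgroupOf.1 h2
    by_cases hqA : ((q.out : A) : MulAut (FreeGroup (Fin n))) ∈ A₁
    · have h4 := mul_mem hqA h3
      rwa [mul_inv_cancel_left] at h4
    · exfalso
      refine hK q hqA _ h3 ?_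
      rw [mul_inv_cancel_left]
      intro x
      exact (Subgroup.mem_iInf.1 (hαU x)) q
  have hKinf : (⨅ q, K q).Characteristic := char_iInf K hKc
  have hKfi : (⨅ q, K q).FiniteIndex := Subgroup.finiteIndex_iInf hKf
  intro B hIB hBA
  have hBA1 : B.relIndex A₁ ≠ 0 :=
    fun h => hBA (Subgroup.relIndex_eq_zero_of_le_right h1A h)
  obtain ⟨K1, hK1c, hK1f, hK1⟩ := H A₁ hab1 B hIB hBA1
  refine ⟨(⨅ q, K q) ⊓ K1, inferInstance, inferInstance, ?_⟩
  intro α hα hx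
  exact hK1 α (hKall α hα (fun x => (hx x).1)) (fun x => (hx x).2)

end Pool.Agent.H279.AB
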